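import Mathlib

set_option autoImplicit false

namespace Pool.Agent.Results.MP_467d97_co.LowerOrder

open Finset Real

/-- `Contains σ τ`: the word `σ ∈ [r]^n` contains the permutation `τ ∈ S_k`, i.e. for some
positions `i 0 < i 1 < ... < i (k-1)` the letters `σ (i j)` are order-isomorphic to `τ`. -/
def Contains {n r k : ℕ} (σ : Fin n → Fin r) (τ : Equiv.Perm (Fin k)) : Prop :=
  ∃ i : Fin k → Fin n, StrictMono i ∧ ∀ j j' : Fin k, τ j < τ j' ↔ σ (i j) < σ (i j')

/-- `IsSuperpattern k σ`: the word `σ` contains every permutation in `S_k`. -/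
def IsSuperpattern {n r : ℕ} (k : ℕ) (σ : Fin n → Fin r) : Prop :=
  ∀ τ : Equiv.Perm (Fin k), Contains σ τ

/-- `f k r`: the least length `n` for which `[r]^n` contains a `k`-superpattern. -/
noncomputable def f (k r : ℕ) : ℕ := sInf {n : ℕ | ∃ σ : Fin n → Fin r, IsSuperpattern k σ}

/-! ### Averages of exponentials -/

theorem sum_exp_le {α : Type*} (V : Finset α) (hV : V.Nonempty) (a : α → ℝ) (L : ℝ)
    (hL : ∀ u ∈ V, ∀ v ∈ V, |a v - a u| ≤ L) :
    ∑ v ∈ V, exp (a v) ≤ V.card * exp ((∑ v ∈ V, a v) / V.card + L ^ 2 / 2) := by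
  have hc : (0 : ℝ) < V.card := by exact_mod_cast hV.card_pos
  set A : ℝ := (∑ v ∈ V, a v) / V.card with hA
  have jen : exp (-A) ≤ (∑ u ∈ V, exp (-a u)) / V.card := by
    have := convexOn_exp.map_sum_le (t := V) (w := fun _ => (1 : ℝ) / V.card)
      (p := fun u => -a u) (fun i _ => by positivity)
      (by rw [Finset.sum_const, nsmul_eq_mul]; field_simp) (fun i _ => Set.mem_univ _)
    simp only [smul_eq_mul] at this
    rw [← Finset.mul_sum, ← Finset.mul_sum, Finset.sum_neg_distrib] at this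
    have e1 : 1 / (V.card : ℝ) * -∑ i ∈ V, a i = -A := by rw [hA]; ring
    rw [e1] at this
    calc exp (-A) ≤ 1 / (V.card : ℝ) * ∑ i ∈ V, exp (-a i) := this
      _ = _ := by ring
  have sym : ∑ v ∈ V, ∑ u ∈ V, exp (a v - a u) ≤ (V.card : ℝ) * V.card * exp (L ^ 2 / 2) := by
    have h1 : ∑ v ∈ V, ∑ u ∈ V, exp (a v - a u) = ∑ v ∈ V, ∑ u ∈ V, cosh (a v - a u) := by
      have h2 : ∑ v ∈ V, ∑ u ∈ V, exp (a v - a u) = ∑ v ∈ V, ∑ u ∈ V, exp (-(a v - a u)) := by
        rw [Finset.sum_comm]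
        refine Finset.sum_congr rfl fun v _ => Finset.sum_congr rfl fun u _ => ?_
        congr 1; ring
      have h3 : ∑ v ∈ V, ∑ u ∈ V, cosh (a v - a u) =
          (∑ v ∈ V, ∑ u ∈ V, exp (a v - a u) + ∑ v ∈ V, ∑ u ∈ V, exp (-(a v - a u))) / 2 := by
        rw [← Finset.sum_add_distrib, Finset.sum_div]
        refine Finset.sum_congr rfl fun v _ => ?_
        rw [← Finset.sum_add_distrib, Finset.sum_div]
        refine Finset.sum_congr rfl fun u _ => ?_
        rw [Real.cosh_eq]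
      rw [h3, ← h2]; ring
    rw [h1]
    calc ∑ v ∈ V, ∑ u ∈ V, cosh (a v - a u) ≤ ∑ v ∈ V, ∑ u ∈ V, exp (L ^ 2 / 2) := by
          refine Finset.sum_le_sum fun v hv => Finset.sum_le_sum fun u hu => ?_
          refine (Real.cosh_le_exp_half_sq _).trans (exp_le_exp.2 ?_)
          have := hL u hu v hv
          have h4 : (a v - a u) ^ 2 ≤ L ^ 2 := by
            rw [← sq_abs]; exact pow_le_pow_left₀ (abs_nonneg _) this 2
          linarith
      _ = _ := by simp [Finset.sum_const, nsmul_eq_mul]; ring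
  have h5 : (∑ v ∈ V, exp (a v)) * exp (-A) ≤ V.card * exp (L ^ 2 / 2) := by
    calc (∑ v ∈ V, exp (a v)) * exp (-A)
        ≤ (∑ v ∈ V, exp (a v)) * ((∑ u ∈ V, exp (-a u)) / V.card) := by
          refine mul_le_mul_of_nonneg_left jen (Finset.sum_nonneg fun _ _ => (exp_pos _).le)
      _ = (∑ v ∈ V, ∑ u ∈ V, exp (a v - a u)) / V.card := by
          rw [mul_div_assoc', Finset.sum_mul_sum]
          congr 1
          refine Finset.sum_congr rfl fun v _ => Finset.sum_congr rfl fun u _ => ?_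
          rw [← exp_add]; congr 1
      _ ≤ ((V.card : ℝ) * V.card * exp (L ^ 2 / 2)) / V.card := by gcongr
      _ = _ := by field_simp
  have h6 : ∑ v ∈ V, exp (a v) = ((∑ v ∈ V, exp (a v)) * exp (-A)) * exp A := by
    rw [mul_assoc, ← exp_add]; simp
  rw [h6]
  calc ((∑ v ∈ V, exp (a v)) * exp (-A)) * exp A ≤ (V.card * exp (L ^ 2 / 2)) * exp A := by
        gcongr
    _ = _ := by rw [mul_assoc, ← exp_add]; congr 2; ring

/-! ### Next occurrences of letters -/

section Word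

variable {n k : ℕ} (σ : Fin n → Fin (k + 1))

/-- the letter `x` is at position `q` -/
def At (q : ℕ) (x : Fin (k + 1)) : Prop := ∃ h : q < n, σ ⟨q, h⟩ = x

open Classical in
/-- the position after the first occurrence of `x` at or after position `p`
(`p + k` when there is none) -/
noncomputable def nxt (p : ℕ) (x : Fin (k + 1)) : ℕ :=
  if h : ∃ q, p ≤ q ∧ At σ q x then Nat.find h + 1 else p + k

/-- the capped distance to the next occurrence -/
noncomputable def gap (p : ℕ) (x : Fin (k + 1)) : ℕ := min k (nxt σ p x - p)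

theorem le_nxt (p : ℕ) (x : Fin (k + 1)) : p ≤ nxt σ p x := by
  classical
  unfold nxt
  split_ifs with h
  · have := (Nat.find_spec h).1
    omega
  · omega

theorem add_gap_le (p : ℕ) (x : Fin (k + 1)) : p + gap σ p x ≤ nxt σ p x := by
  have h1 := le_nxt σ p x
  have h2 : gap σ p x ≤ nxt σ p x - p := min_le_right _ _
  omega

theorem gap_le (p : ℕ) (x : Fin (k + 1)) : gap σ p x ≤ k := min_le_left _ _

theorem gap_eq_of_le {p : ℕ} (hp : n ≤ p) (x : Fin (k + 1)) : gap σ p x = k := by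
  classical
  unfold gap nxt
  rw [dif_neg]
  · simp
  · rintro ⟨q, hq, h, -⟩
    omega

theorem exists_at_of_gap_lt {p j : ℕ} {x : Fin (k + 1)} (hj : j < k) (h : gap σ p x ≤ j) :
    ∃ q, p ≤ q ∧ q < p + j ∧ At σ q x := by
  classical
  unfold gap at h
  have h2 : nxt σ p x - p ≤ j := by
    rcases min_le_iff.1 h with h | h
    · omega
    · exact h
  unfold nxt at h2
  split_ifs at h2 with hx
  · refine ⟨Nat.find hx, (Nat.find_spec hx).1, ?_, (Nat.find_spec hx).2⟩
    have := (Nat.find_spec hx).1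
    omega
  · omega

/-- distance for the letter `m.succAbove v` -/
noncomputable def G (m : Fin (k + 1)) (p : ℕ) (v : Fin k) : ℕ := gap σ p (m.succAbove v)

theorem card_small (m : Fin (k + 1)) (p j : ℕ) (hj : j < k) :
    (univ.filter (fun v : Fin k => G σ m p v ≤ j)).card ≤ j := by
  classical
  have h : ∀ v ∈ univ.filter (fun v : Fin k => G σ m p v ≤ j),
      ∃ q, p ≤ q ∧ q < p + j ∧ At σ q (m.succAbove v) := by
    intro v hv
    exact exists_at_of_gap_lt σ hj (Finset.mem_filter.1 hv).2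
  choose! q hq using h
  have : (univ.filter (fun v : Fin k => G σ m p v ≤ j)).card ≤ (Finset.Ico p (p + j)).card := by
    refine Finset.card_le_card_of_injOn q (fun v hv => ?_) ?_
    · have := hq v hv
      exact Finset.mem_coe.2 (Finset.mem_Ico.2 ⟨this.1, this.2.1⟩)
    · intro v hv v' hv' hvv
      obtain ⟨h1, e1⟩ := (hq v hv).2.2
      obtain ⟨h2, e2⟩ := (hq v' hv').2.2
      have : m.succAbove v = m.succAbove v' := by
        rw [← e1, ← e2]; congr 1; exact Fin.ext hvv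
      exact Fin.succAbove_right_injective this
  simpa using this

theorem sum_G_ge (m : Fin (k + 1)) (p : ℕ) :
    (k : ℝ) * (k + 1) / 2 ≤ ∑ v : Fin k, (G σ m p v : ℝ) := by
  classical
  have h1 : ∀ v : Fin k, G σ m p v = ∑ j ∈ range k, if j < G σ m p v then 1 else 0 := by
    intro v
    rw [Finset.sum_ite, Finset.sum_const_zero, add_zero, Finset.sum_const, smul_eq_mul, mul_one]
    have : (range k).filter (fun j => j < G σ m p v) = range (G σ m p v) := by
      ext j
      simp only [Finset.mem_filter, Finset.mem_range]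
      have := gap_le σ p (m.succAbove v)
      unfold G
      constructor
      · exact fun h => h.2
      · exact fun h => ⟨by omega, h⟩
    rw [this, Finset.card_range]
  have h2 : ∑ v : Fin k, G σ m p v = ∑ j ∈ range k, (univ.filter (fun v : Fin k => j < G σ m p v)).card := by
    rw [Finset.sum_congr rfl fun v _ => h1 v, Finset.sum_comm]
    refine Finset.sum_congr rfl fun j _ => ?_
    rw [Finset.card_filter]
  have h3 : ∀ j ∈ range k, k - j ≤ (univ.filter (fun v : Fin k => j < G σ m p v)).card := by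
    intro j hj
    have hj' := Finset.mem_range.1 hj
    have e := card_small σ m p j hj'
    have e2 := Finset.card_filter_add_card_filter_not (s := (univ : Finset (Fin k)))
      (fun v : Fin k => G σ m p v ≤ j)
    simp only [not_le, Finset.card_univ, Fintype.card_fin] at e2
    omega
  have h4 : ∑ j ∈ range k, (k - j) ≤ ∑ v : Fin k, G σ m p v := by
    rw [h2]; exact Finset.sum_le_sum h3
  have h5 : (∑ j ∈ range k, (k - j)) * 2 = k * (k + 1) := by
    have : ∑ j ∈ range k, (k - j) = ∑ j ∈ range k, (j + 1) := by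
      rw [← Finset.sum_range_reflect]
      refine Finset.sum_congr rfl fun j hj => ?_
      have := Finset.mem_range.1 hj
      omega
    rw [this, Finset.sum_add_distrib, Finset.sum_const, Finset.card_range, smul_eq_mul, mul_one,
      add_mul, Finset.sum_range_id_mul_two]
    cases k with
    | zero => simp
    | succ k => simp; ring
  have h6 : ((∑ j ∈ range k, (k - j) : ℕ) : ℝ) ≤ ((∑ v : Fin k, G σ m p v : ℕ) : ℝ) := by
    exact_mod_cast h4
  have h7 : ((∑ j ∈ range k, (k - j) : ℕ) : ℝ) * 2 = k * (k + 1) := by exact_mod_cast h5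
  push_cast at h6 h7 ⊢
  linarith

/-! ### The potential function -/

/-- average over the unused letters of the capped distances from `p` -/
noncomputable def av (V : Finset (Fin k)) (m : Fin (k + 1)) (p : ℕ) : ℝ :=
  (∑ v ∈ V, (G σ m p v : ℝ)) / V.card

/-- potential for the representativeness of the unused letters when `r` letters will be left -/
noncomputable def pr (θ ε : ℕ → ℝ) (μ : ℝ) (V : Finset (Fin k)) (m : Fin (k + 1)) (p r : ℕ) : ℝ :=
  exp (θ r * (μ - ε r - av σ V m p) +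
    (θ r) ^ 2 * (k : ℝ) ^ 2 / 2 * ∑ j ∈ Ico r V.card, ((j : ℝ) ^ 2)⁻¹)

/-- the guaranteed displacement when going from `k` to `s` unused letters -/
noncomputable def acc (k : ℕ) (ε : ℕ → ℝ) (μ : ℝ) (s : ℕ) : ℝ := ∑ j ∈ Ioc s k, (μ - ε j)

/-- potential for the displacement -/
noncomputable def pe (ε : ℕ → ℝ) (μ lam t : ℝ) (V : Finset (Fin k)) (x : ℕ) : ℝ :=
  exp (-lam * ((x : ℝ) - acc k ε μ V.card) - lam * t + V.card * (lam ^ 2 * (k : ℝ) ^ 2 / 2))

theorem av_erase {V : Finset (Fin k)} {v : Fin k} (hv : v ∈ V) (h2 : 2 ≤ V.card)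
    (m : Fin (k + 1)) (p : ℕ) :
    av σ V m p - av σ (V.erase v) m p = ((G σ m p v : ℝ) - av σ V m p) / ((V.card : ℝ) - 1) := by
  unfold av
  rw [Finset.card_erase_of_mem hv]
  have h3 : ((V.card - 1 : ℕ) : ℝ) = (V.card : ℝ) - 1 := by
    rw [Nat.cast_sub (by omega)]; simp
  rw [h3, ← Finset.sum_erase_add _ _ hv]
  have h4 : (0 : ℝ) < (V.card : ℝ) - 1 := by
    have : (2 : ℝ) ≤ V.card := by exact_mod_cast h2
    linarith
  have h5 : (V.card : ℝ) ≠ 0 := by linarith
  field_simp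
  ring

theorem sum_pr_le (θ ε : ℕ → ℝ) (μ : ℝ) (V : Finset (Fin k)) (m : Fin (k + 1)) (p r : ℕ)
    (h1 : 1 ≤ r) (h2 : r < V.card) :
    ∑ v ∈ V, pr σ θ ε μ (V.erase v) m p r ≤ V.card * pr σ θ ε μ V m p r := by
  have hV : V.Nonempty := Finset.card_pos.1 (by omega)
  have hs : (0 : ℝ) < (V.card : ℝ) - 1 := by
    have : (2 : ℝ) ≤ V.card := by exact_mod_cast (by omega : 2 ≤ V.card)
    linarith
  have hc : (V.card : ℝ) ≠ 0 := by linarith
  set a : Fin k → ℝ := fun v => θ r * (((G σ m p v : ℝ) - av σ V m p) / ((V.card : ℝ) - 1)) with ha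
  set L : ℝ := |θ r| * (k / ((V.card : ℝ) - 1)) with hL
  have hH := sum_exp_le V hV a L (by
    intro u _ v _
    have e : a v - a u = θ r * (((G σ m p v : ℝ) - G σ m p u) / ((V.card : ℝ) - 1)) := by
      simp only [ha]; ring
    rw [e, abs_mul, abs_div, abs_of_pos hs, hL]
    have h3 : |(G σ m p v : ℝ) - G σ m p u| ≤ k := by
      have e1 : (G σ m p v : ℝ) ≤ k := by exact_mod_cast gap_le σ p _
      have e2 : (G σ m p u : ℝ) ≤ k := by exact_mod_cast gap_le σ p _
      have e3 : (0 : ℝ) ≤ G σ m p v := Nat.cast_nonneg _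
      have e4 : (0 : ℝ) ≤ G σ m p u := Nat.cast_nonneg _
      rw [abs_le]; constructor <;> linarith
    gcongr)
  have hsum : ∑ v ∈ V, a v = 0 := by
    simp only [ha]
    rw [← Finset.mul_sum, ← Finset.sum_div, Finset.sum_sub_distrib, Finset.sum_const, nsmul_eq_mul]
    have : (V.card : ℝ) * av σ V m p = ∑ v ∈ V, (G σ m p v : ℝ) := by
      unfold av; field_simp
    rw [this]; simp
  rw [hsum, zero_div, zero_add] at hH
  have hL2 : L ^ 2 / 2 = (θ r) ^ 2 * (k : ℝ) ^ 2 / 2 * (((V.card - 1 : ℕ) : ℝ) ^ 2)⁻¹ := by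
    rw [hL, mul_pow, sq_abs, div_pow, Nat.cast_sub (by omega)]
    push_cast
    field_simp
  have hIco : ∑ j ∈ Ico r V.card, ((j : ℝ) ^ 2)⁻¹ =
      ∑ j ∈ Ico r (V.card - 1), ((j : ℝ) ^ 2)⁻¹ + (((V.card - 1 : ℕ) : ℝ) ^ 2)⁻¹ := by
    obtain ⟨s, hs'⟩ : ∃ s, V.card = s + 1 := ⟨V.card - 1, by omega⟩
    rw [hs', Nat.add_sub_cancel, Finset.sum_Ico_succ_top (by omega)]
  have key : ∀ v ∈ V, pr σ θ ε μ (V.erase v) m p r =
      exp (θ r * (μ - ε r - av σ V m p) +
        (θ r) ^ 2 * (k : ℝ) ^ 2 / 2 * ∑ j ∈ Ico r (V.card - 1), ((j : ℝ) ^ 2)⁻¹) * exp (a v) := by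
    intro v hv
    unfold pr
    rw [← exp_add, Finset.card_erase_of_mem hv]
    congr 1
    have := av_erase σ hv (by omega) m p
    simp only [ha]
    rw [← this]
    ring
  rw [Finset.sum_congr rfl key, ← Finset.mul_sum]
  calc _ ≤ exp (θ r * (μ - ε r - av σ V m p) +
        (θ r) ^ 2 * (k : ℝ) ^ 2 / 2 * ∑ j ∈ Ico r (V.card - 1), ((j : ℝ) ^ 2)⁻¹) *
          (V.card * exp (L ^ 2 / 2)) := by gcongr
    _ = V.card * (exp (θ r * (μ - ε r - av σ V m p) +
        (θ r) ^ 2 * (k : ℝ) ^ 2 / 2 * ∑ j ∈ Ico r (V.card - 1), ((j : ℝ) ^ 2)⁻¹) *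
          exp (L ^ 2 / 2)) := by ring
    _ = _ := by
        unfold pr
        rw [← exp_add, hIco, hL2]
        congr 2
        ring

theorem sum_pe_le (ε : ℕ → ℝ) (μ lam t : ℝ) (hlam : 0 ≤ lam) (V : Finset (Fin k))
    (m : Fin (k + 1)) (x : ℕ) (h1 : 1 ≤ V.card) (hav : μ - ε V.card ≤ av σ V m x) :
    ∑ v ∈ V, pe ε μ lam t (V.erase v) (nxt σ x (m.succAbove v)) ≤
      V.card * pe (k := k) ε μ lam t V x := by
  have hV : V.Nonempty := Finset.card_pos.1 (by omega)
  have hVk : V.card ≤ k := by simpa using Finset.card_le_univ V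
  set a : Fin k → ℝ := fun v => -lam * (G σ m x v : ℝ) with ha
  set L : ℝ := lam * k with hL
  have hH := sum_exp_le V hV a L (by
    intro u _ v _
    have e : a v - a u = lam * ((G σ m x u : ℝ) - G σ m x v) := by
      simp only [ha]; ring
    rw [e, abs_mul, abs_of_nonneg hlam, hL]
    have h3 : |(G σ m x u : ℝ) - G σ m x v| ≤ k := by
      have e1 : (G σ m x v : ℝ) ≤ k := by exact_mod_cast gap_le σ x _
      have e2 : (G σ m x u : ℝ) ≤ k := by exact_mod_cast gap_le σ x _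
      have e3 : (0 : ℝ) ≤ G σ m x v := Nat.cast_nonneg _
      have e4 : (0 : ℝ) ≤ G σ m x u := Nat.cast_nonneg _
      rw [abs_le]; constructor <;> linarith
    gcongr)
  have hsum : (∑ v ∈ V, a v) / V.card = -lam * av σ V m x := by
    simp only [ha]
    rw [← Finset.mul_sum]
    unfold av
    ring
  rw [hsum] at hH
  have hacc : acc k ε μ (V.card - 1) = acc k ε μ V.card + (μ - ε V.card) := by
    unfold acc
    have : Ioc (V.card - 1) k = insert V.card (Ioc V.card k) := by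
      ext j
      simp only [Finset.mem_Ioc, Finset.mem_insert]
      omega
    rw [this, Finset.sum_insert (by simp)]
    ring
  set c : ℝ := lam ^ 2 * (k : ℝ) ^ 2 / 2 with hc
  have key : ∀ v ∈ V, pe ε μ lam t (V.erase v) (nxt σ x (m.succAbove v)) ≤
      exp (-lam * ((x : ℝ) - acc k ε μ V.card) + lam * (μ - ε V.card) - lam * t +
        ((V.card : ℝ) - 1) * c) * exp (a v) := by
    intro v hv
    unfold pe
    rw [← exp_add, Finset.card_erase_of_mem hv, hacc]
    refine exp_le_exp.2 ?_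
    have h3 : ((V.card - 1 : ℕ) : ℝ) = (V.card : ℝ) - 1 := by
      rw [Nat.cast_sub (by omega)]; simp
    rw [h3]
    have h4 : (x : ℝ) + G σ m x v ≤ nxt σ x (m.succAbove v) := by
      exact_mod_cast add_gap_le σ x (m.succAbove v)
    have h5 := mul_le_mul_of_nonneg_left h4 hlam
    simp only [ha]
    rw [← hc]
    linarith
  calc _ ≤ ∑ v ∈ V, exp (-lam * ((x : ℝ) - acc k ε μ V.card) + lam * (μ - ε V.card) - lam * t +
        ((V.card : ℝ) - 1) * c) * exp (a v) := Finset.sum_le_sum key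
    _ = exp (-lam * ((x : ℝ) - acc k ε μ V.card) + lam * (μ - ε V.card) - lam * t +
        ((V.card : ℝ) - 1) * c) * ∑ v ∈ V, exp (a v) := by rw [Finset.mul_sum]
    _ ≤ exp (-lam * ((x : ℝ) - acc k ε μ V.card) + lam * (μ - ε V.card) - lam * t +
        ((V.card : ℝ) - 1) * c) * (V.card * exp (-lam * av σ V m x + L ^ 2 / 2)) := by gcongr
    _ = V.card * exp (-lam * ((x : ℝ) - acc k ε μ V.card) + lam * (μ - ε V.card) - lam * t +
        ((V.card : ℝ) - 1) * c + (-lam * av σ V m x + L ^ 2 / 2)) := by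
        rw [exp_add _ (-lam * av σ V m x + L ^ 2 / 2)]; ring
    _ ≤ _ := by
        unfold pe
        refine mul_le_mul_of_nonneg_left (exp_le_exp.2 ?_) (Nat.cast_nonneg _)
        have h6 := mul_le_mul_of_nonneg_left hav hlam
        have h7 : L ^ 2 / 2 = c := by rw [hL, hc]; ring
        rw [h7, ← hc]
        linarith

/-- the total potential -/
noncomputable def pot (θ ε : ℕ → ℝ) (μ lam t : ℝ) (V : Finset (Fin k)) (pos : Fin (k + 1) → ℕ) :
    ℝ :=
  ∑ m : Fin (k + 1), pe ε μ lam t V (pos m) +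
    ∑ m : Fin (k + 1), ∑ p ∈ range n, ∑ r ∈ Icc 1 V.card, pr σ θ ε μ V m p r

theorem rep_of_pot (θ ε : ℕ → ℝ) (μ lam t : ℝ) (V : Finset (Fin k)) (pos : Fin (k + 1) → ℕ)
    (hθ : ∀ r, 1 ≤ r → 0 < θ r) (hε : ∀ r, 0 ≤ ε r) (hμ : μ ≤ k) (h1 : 1 ≤ V.card)
    (hpot : pot σ θ ε μ lam t V pos < 1) (m : Fin (k + 1)) :
    μ - ε V.card ≤ av σ V m (pos m) := by
  by_cases hn : n ≤ pos m
  · have : av σ V m (pos m) = k := by
      unfold av
      have hc : (V.card : ℝ) ≠ 0 := by
        have : (1 : ℝ) ≤ V.card := by exact_mod_cast h1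
        linarith
      have : ∀ v ∈ V, (G σ m (pos m) v : ℝ) = k := by
        intro v _
        unfold G
        rw [gap_eq_of_le σ hn]
      rw [Finset.sum_congr rfl this, Finset.sum_const, nsmul_eq_mul]
      field_simp
    rw [this]
    have := hε V.card
    linarith
  · push Not at hn
    have hle : pr σ θ ε μ V m (pos m) V.card ≤ pot σ θ ε μ lam t V pos := by
      unfold pot
      have e1 : 0 ≤ ∑ m : Fin (k + 1), pe ε μ lam t V (pos m) :=
        Finset.sum_nonneg fun _ _ => (exp_pos _).le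
      have e2 : pr σ θ ε μ V m (pos m) V.card ≤
          ∑ m : Fin (k + 1), ∑ p ∈ range n, ∑ r ∈ Icc 1 V.card, pr σ θ ε μ V m p r := by
        calc pr σ θ ε μ V m (pos m) V.card ≤ ∑ r ∈ Icc 1 V.card, pr σ θ ε μ V m (pos m) r :=
              Finset.single_le_sum (f := fun r => pr σ θ ε μ V m (pos m) r)
                (fun _ _ => (exp_pos _).le) (Finset.mem_Icc.2 ⟨h1, le_rfl⟩)
          _ ≤ ∑ p ∈ range n, ∑ r ∈ Icc 1 V.card, pr σ θ ε μ V m p r :=
              Finset.single_le_sum (f := fun p => ∑ r ∈ Icc 1 V.card, pr σ θ ε μ V m p r)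
                (fun _ _ => Finset.sum_nonneg fun _ _ => (exp_pos _).le) (Finset.mem_range.2 hn)
          _ ≤ _ := Finset.single_le_sum
                (f := fun m => ∑ p ∈ range n, ∑ r ∈ Icc 1 V.card, pr σ θ ε μ V m p r)
                (fun _ _ => Finset.sum_nonneg fun _ _ => Finset.sum_nonneg
                  fun _ _ => (exp_pos _).le) (Finset.mem_univ m)
      linarith
    have hlt := hle.trans_lt hpot
    unfold pr at hlt
    rw [Finset.Ico_self, Finset.sum_empty, mul_zero, add_zero, Real.exp_lt_one_iff] at hlt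
    have := hθ V.card h1
    by_contra hcon
    push Not at hcon
    have : 0 < θ V.card * (μ - ε V.card - av σ V m (pos m)) := mul_pos this (by linarith)
    linarith

theorem pot_step (θ ε : ℕ → ℝ) (μ lam t : ℝ) (hlam : 0 ≤ lam) (V : Finset (Fin k))
    (pos : Fin (k + 1) → ℕ)
    (hθ : ∀ r, 1 ≤ r → 0 < θ r) (hε : ∀ r, 0 ≤ ε r) (hμ : μ ≤ k) (h1 : 1 ≤ V.card)
    (hpot : pot σ θ ε μ lam t V pos < 1) :
    ∃ v ∈ V, pot σ θ ε μ lam t (V.erase v) (fun m => nxt σ (pos m) (m.succAbove v)) < 1 := by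
  by_contra hcon
  push Not at hcon
  have hrep := rep_of_pot σ θ ε μ lam t V pos hθ hε hμ h1 hpot
  have hlow : (V.card : ℝ) ≤
      ∑ v ∈ V, pot σ θ ε μ lam t (V.erase v) (fun m => nxt σ (pos m) (m.succAbove v)) := by
    have := Finset.sum_le_sum hcon
    simpa using this
  have hup : ∑ v ∈ V, pot σ θ ε μ lam t (V.erase v) (fun m => nxt σ (pos m) (m.succAbove v)) ≤
      V.card * pot σ θ ε μ lam t V pos := by
    unfold pot
    rw [Finset.sum_add_distrib, mul_add]
    refine add_le_add ?_ ?_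
    · rw [Finset.sum_comm, Finset.mul_sum]
      exact Finset.sum_le_sum fun m _ => sum_pe_le σ ε μ lam t hlam V m (pos m) h1 (hrep m)
    · rw [Finset.sum_comm, Finset.mul_sum]
      refine Finset.sum_le_sum fun m _ => ?_
      rw [Finset.sum_comm, Finset.mul_sum]
      refine Finset.sum_le_sum fun p _ => ?_
      have e1 : ∑ v ∈ V, ∑ r ∈ Icc 1 (V.erase v).card, pr σ θ ε μ (V.erase v) m p r =
          ∑ v ∈ V, ∑ r ∈ Icc 1 (V.card - 1), pr σ θ ε μ (V.erase v) m p r :=
        Finset.sum_congr rfl fun v hv => by rw [Finset.card_erase_of_mem hv]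
      rw [e1, Finset.sum_comm, Finset.mul_sum]
      calc _ ≤ ∑ r ∈ Icc 1 (V.card - 1), (V.card : ℝ) * pr σ θ ε μ V m p r := by
            refine Finset.sum_le_sum fun r hr => ?_
            rw [Finset.mem_Icc] at hr
            exact sum_pr_le σ θ ε μ V m p r hr.1 (by omega)
        _ ≤ _ := by
            refine Finset.sum_le_sum_of_subset_of_nonneg
              (Finset.Icc_subset_Icc le_rfl (by omega)) fun r _ _ =>
                mul_nonneg (Nat.cast_nonneg _) (exp_pos _).le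
  have hc : (0 : ℝ) < V.card := by exact_mod_cast h1
  nlinarith [hlow, hup, hpot, hc]

theorem exists_list (θ ε : ℕ → ℝ) (μ lam t : ℝ) (hlam : 0 < lam)
    (hθ : ∀ r, 1 ≤ r → 0 < θ r) (hε : ∀ r, 0 ≤ ε r) (hμ : μ ≤ k) (s : ℕ) :
    ∀ (V : Finset (Fin k)) (pos : Fin (k + 1) → ℕ), V.card = s →
      pot σ θ ε μ lam t V pos < 1 →
      ∃ l : List (Fin k), l.Nodup ∧ (∀ v, v ∈ l ↔ v ∈ V) ∧ ∀ m : Fin (k + 1),
        acc k ε μ 0 - t <
          ((l.foldl (fun x v => nxt σ x (m.succAbove v)) (pos m) : ℕ) : ℝ) := by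
  induction s with
  | zero =>
    intro V pos hV hpot
    refine ⟨[], List.nodup_nil, fun v => ?_, fun m => ?_⟩
    · rw [Finset.card_eq_zero] at hV
      simp [hV]
    · have hle : pe ε μ lam t V (pos m) ≤ pot σ θ ε μ lam t V pos := by
        unfold pot
        have e1 : pe ε μ lam t V (pos m) ≤ ∑ m : Fin (k + 1), pe ε μ lam t V (pos m) :=
          Finset.single_le_sum (f := fun m => pe ε μ lam t V (pos m))
            (fun _ _ => (exp_pos _).le) (Finset.mem_univ m)
        have e2 : 0 ≤ ∑ m : Fin (k + 1), ∑ p ∈ range n, ∑ r ∈ Icc 1 V.card,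
            pr σ θ ε μ V m p r :=
          Finset.sum_nonneg fun _ _ => Finset.sum_nonneg fun _ _ => Finset.sum_nonneg
                  fun _ _ => (exp_pos _).le
        linarith
      have hlt := hle.trans_lt hpot
      unfold pe at hlt
      rw [hV, Nat.cast_zero, zero_mul, add_zero, Real.exp_lt_one_iff] at hlt
      simp only [List.foldl_nil]
      by_contra hcon
      push Not at hcon
      have : 0 ≤ lam * (acc k ε μ 0 - t - pos m) := mul_nonneg hlam.le (by linarith)
      linarith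
  | succ s ih =>
    intro V pos hV hpot
    obtain ⟨v, hv, hp⟩ := pot_step σ θ ε μ lam t hlam.le V pos hθ hε hμ (by omega) hpot
    obtain ⟨l, hl1, hl2, hl3⟩ := ih (V.erase v) _ (by rw [Finset.card_erase_of_mem hv]; omega) hp
    refine ⟨v :: l, ?_, fun u => ?_, fun m => ?_⟩
    · rw [List.nodup_cons]
      refine ⟨fun h => ?_, hl1⟩
      have := (hl2 v).1 h
      simp at this
    · rw [List.mem_cons, hl2, Finset.mem_erase]
      by_cases h : u = v
      · subst h; simp [hv]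
      · simp [h]
    · simpa using hl3 m

/-! ### Greedy embedding -/

theorem exists_missing (τ : Equiv.Perm (Fin k)) (i : Fin k → Fin n)
    (h : ∀ j j' : Fin k, τ j < τ j' ↔ σ (i j) < σ (i j')) :
    ∃ m : Fin (k + 1), ∀ j, σ (i j) = m.succAbove (τ j) := by
  classical
  set g : Fin k → Fin (k + 1) := fun v => σ (i (τ.symm v)) with hg
  have hmono : StrictMono g := by
    intro v v' hv
    have := h (τ.symm v) (τ.symm v')
    simp only [Equiv.apply_symm_apply] at this
    exact this.1 hv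
  have hcard : (univ.image g).card = k := by
    rw [Finset.card_image_of_injective _ hmono.injective]; simp
  have hne : ((univ.image g)ᶜ : Finset (Fin (k + 1))).card = 1 := by
    rw [Finset.card_compl, hcard]; simp
  obtain ⟨m, hm⟩ := Finset.card_eq_one.1 hne
  have hr : Set.range g = Set.range (m.succAbove) := by
    rw [Fin.range_succAbove]
    ext x
    have : x ∈ ((univ.image g)ᶜ : Finset (Fin (k + 1))) ↔ x = m := by rw [hm]; simp
    rw [Finset.mem_compl] at this
    simp only [Finset.mem_image, Finset.mem_univ, true_and] at this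
    rw [Set.mem_range, Set.mem_compl_iff, Set.mem_singleton_iff, ← this, not_not]
  have he : g = m.succAbove :=
    (StrictMono.range_inj hmono (Fin.strictMono_succAbove m)).1 hr
  refine ⟨m, fun j => ?_⟩
  have := congrFun he (τ j)
  simpa [hg] using this

theorem nxt_le_of_at {p q : ℕ} {x : Fin (k + 1)} (hpq : p ≤ q) (hq : At σ q x) :
    nxt σ p x ≤ q + 1 := by
  classical
  unfold nxt
  have h : ∃ q, p ≤ q ∧ At σ q x := ⟨q, hpq, hq⟩
  rw [dif_pos h]
  have := Nat.find_min' h ⟨hpq, hq⟩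
  omega

theorem greedy (m : Fin (k + 1)) (l : List (Fin k)) :
    ∀ (p : ℕ) (q : Fin l.length → ℕ), StrictMono q → (∀ j, p ≤ q j) →
      (∀ j, At σ (q j) (m.succAbove (l.get j))) → p ≤ n →
      l.foldl (fun x v => nxt σ x (m.succAbove v)) p ≤ n := by
  induction l with
  | nil => intro p q _ _ _ hp; simpa using hp
  | cons v l ih =>
    intro p q hq hpq hat hp
    rw [List.foldl_cons]
    have h0 := hat ⟨0, by simp⟩
    have hle := nxt_le_of_at σ (hpq ⟨0, by simp⟩) h0
    simp only [List.get_eq_getElem, List.getElem_cons_zero] at hle h0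
    refine ih _ (fun j => q ⟨j + 1, by simp⟩) ?_ ?_ ?_ ?_
    · intro a b hab
      refine hq ?_
      rw [Fin.mk_lt_mk]
      have := Fin.lt_def.1 hab
      omega
    · intro j
      have : q ⟨0, by simp⟩ < q ⟨j + 1, by simp⟩ := hq (by simp [Fin.lt_def])
      omega
    · intro j
      have := hat ⟨j + 1, by simp⟩
      simpa using this
    · obtain ⟨h, -⟩ := h0
      omega

/-- a superpattern is at least as long as the worst greedy embedding -/
theorem exists_foldl_le (h : IsSuperpattern k σ) (l : List (Fin k)) (hl : l.Nodup)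
    (hl2 : ∀ v, v ∈ l) :
    ∃ m : Fin (k + 1), l.foldl (fun x v => nxt σ x (m.succAbove v)) 0 ≤ n := by
  classical
  have hlen : l.length = k := by
    have h1 : l.toFinset = univ := by
      ext v; simp [hl2 v]
    have h2 := List.toFinset_card_of_nodup hl
    rw [h1] at h2
    simpa using h2.symm
  have hinj : Function.Injective (fun j : Fin k => l.get (Fin.cast hlen.symm j)) := by
    intro a b hab
    have := (List.Nodup.injective_get hl) hab
    exact Fin.cast_injective _ this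
  set τ : Equiv.Perm (Fin k) :=
    Equiv.ofBijective (fun j : Fin k => l.get (Fin.cast hlen.symm j))
      (Finite.injective_iff_bijective.1 hinj) with hτ
  obtain ⟨i, hi, hi2⟩ := h τ
  obtain ⟨m, hm⟩ := exists_missing σ τ i hi2
  refine ⟨m, greedy σ m l 0 (fun j => (i (Fin.cast hlen j) : ℕ)) ?_ (fun _ => Nat.zero_le _) ?_
    (Nat.zero_le _)⟩
  · intro a b hab
    have h1 : Fin.cast hlen a < Fin.cast hlen b := Fin.lt_def.2 (Fin.lt_def.1 hab)
    exact Fin.lt_def.1 (hi h1)
  · intro j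
    refine ⟨(i (Fin.cast hlen j)).2, ?_⟩
    have := hm (Fin.cast hlen j)
    rw [Fin.eta, this]
    congr 1

end Word

/-! ### The lower bound -/

theorem sum_inv_sqrt_le (k : ℕ) : ∑ j ∈ Ioc 0 k, (1 : ℝ) / √(j : ℝ) ≤ 2 * √(k : ℝ) := by
  induction k with
  | zero => simp
  | succ k ih =>
    rw [← Finset.insert_Ioc_right_eq_Ioc_add_one (Nat.zero_le k), Finset.sum_insert (by simp)]
    have h1 : (0 : ℝ) < √((k + 1 : ℕ) : ℝ) := Real.sqrt_pos.2 (by positivity)
    have h2 : (1 : ℝ) / √((k + 1 : ℕ) : ℝ) ≤ 2 * (√((k + 1 : ℕ) : ℝ) - √(k : ℝ)) := by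
      rw [div_le_iff₀ h1]
      have e1 : √((k + 1 : ℕ) : ℝ) ^ 2 = k + 1 := by
        rw [Real.sq_sqrt (by positivity)]; push_cast; ring
      have e2 : √(k : ℝ) ^ 2 = k := Real.sq_sqrt (by positivity)
      nlinarith [sq_nonneg (√((k + 1 : ℕ) : ℝ) - √(k : ℝ))]
    linarith

theorem main_bound {k n : ℕ} (hk : 5 ≤ k) (σ : Fin n → Fin (k + 1)) (h : IsSuperpattern k σ) :
    (k : ℝ) * (k + 1) / 2 - 10 * k * √(k * log k) ≤ n := by
  by_contra hcon
  push Not at hcon
  set K : ℝ := (k : ℝ) with hK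
  have hK5 : (5 : ℝ) ≤ K := by rw [hK]; exact_mod_cast hk
  have hKpos : 0 < K := by linarith
  set ℓ : ℝ := log K with hℓ
  have hℓpos : 0 < ℓ := Real.log_pos (by linarith)
  have hn : (n : ℝ) ≤ K * (K + 1) / 2 := by
    have : 0 ≤ 10 * K * √(K * ℓ) := by positivity
    linarith
  set ε : ℕ → ℝ := fun r => 4 * K * √ℓ * (1 / √(r : ℝ)) with hε
  set θ : ℕ → ℝ := fun r => r * ε r / (2 * K ^ 2) with hθ
  set t : ℝ := 2 * K * √(K * ℓ) with ht
  set lam : ℝ := t / K ^ 3 with hlam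
  set μ : ℝ := (K + 1) / 2 with hμ
  have htpos : 0 < t := by positivity
  have hlampos : 0 < lam := by positivity
  have hεnn : ∀ r, 0 ≤ ε r := fun r => by simp only [hε]; positivity
  have hθpos : ∀ r, 1 ≤ r → 0 < θ r := by
    intro r hr
    have h1 : (0 : ℝ) < r := by exact_mod_cast hr
    have h2 : 0 < √(r : ℝ) := Real.sqrt_pos.2 h1
    have h3 : 0 < √ℓ := Real.sqrt_pos.2 hℓpos
    simp only [hθ, hε]
    positivity
  have hμK : μ ≤ K := by rw [hμ]; linarith
  have hexpl : exp ℓ = K := Real.exp_log hKpos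
  -- initial potential
  have hav : ∀ (m : Fin (k + 1)) (p : ℕ), μ ≤ av σ univ m p := by
    intro m p
    unfold av
    rw [Finset.card_univ, Fintype.card_fin, le_div_iff₀ hKpos, hμ]
    have := sum_G_ge σ m p
    linarith
  have hpr : ∀ (m : Fin (k + 1)) (p r : ℕ), 1 ≤ r → pr σ θ ε μ univ m p r ≤ 1 / K ^ 4 := by
    intro m p r hr
    have hr' : (1 : ℝ) ≤ r := by exact_mod_cast hr
    have hS : ∑ j ∈ Ico r (univ : Finset (Fin k)).card, ((j : ℝ) ^ 2)⁻¹ ≤ 2 / r := by
      rw [Finset.card_univ, Fintype.card_fin]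
      have e1 : Ico r k ⊆ Ioo (r - 1) k := by
        intro j hj
        rw [Finset.mem_Ico] at hj
        rw [Finset.mem_Ioo]
        omega
      have e2 := sum_Ioo_inv_sq_le (α := ℝ) (r - 1) k
      have e3 : ((r - 1 : ℕ) : ℝ) + 1 = r := by
        rw [Nat.cast_sub hr]; simp
      rw [e3] at e2
      refine le_trans (Finset.sum_le_sum_of_subset_of_nonneg e1 fun _ _ _ => by positivity) e2
    have hsq : ε r ^ 2 * r = 16 * K ^ 2 * ℓ := by
      simp only [hε]
      have e4 : √(r : ℝ) ^ 2 = r := Real.sq_sqrt (by positivity)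
      have e5 : √ℓ ^ 2 = ℓ := Real.sq_sqrt hℓpos.le
      have e6 : √(r : ℝ) ≠ 0 := (Real.sqrt_pos.2 (by linarith)).ne'
      rw [mul_pow, mul_pow, mul_pow, e5, div_pow, one_pow, e4]
      field_simp
      ring
    have hexp : θ r * (μ - ε r - av σ univ m p) +
        (θ r) ^ 2 * (k : ℝ) ^ 2 / 2 * ∑ j ∈ Ico r (univ : Finset (Fin k)).card, ((j : ℝ) ^ 2)⁻¹ ≤
        -(4 * ℓ) := by
      have a1 : θ r * (μ - ε r - av σ univ m p) ≤ θ r * (-ε r) :=
        mul_le_mul_of_nonneg_left (by linarith [hav m p]) (hθpos r hr).le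
      have a2 : (θ r) ^ 2 * (k : ℝ) ^ 2 / 2 *
          ∑ j ∈ Ico r (univ : Finset (Fin k)).card, ((j : ℝ) ^ 2)⁻¹ ≤
          (θ r) ^ 2 * K ^ 2 / 2 * (2 / r) :=
        mul_le_mul_of_nonneg_left hS (by positivity)
      have a3 : θ r * (-ε r) + (θ r) ^ 2 * K ^ 2 / 2 * (2 / r) = -(ε r ^ 2 * r) / (4 * K ^ 2) := by
        simp only [hθ]
        field_simp
        ring
      rw [hsq] at a3
      have a4 : -(16 * K ^ 2 * ℓ) / (4 * K ^ 2) = -(4 * ℓ) := by
        field_simp
        ring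
      linarith
    unfold pr
    refine (exp_le_exp.2 hexp).trans (le_of_eq ?_)
    rw [Real.exp_neg, show (4 : ℝ) * ℓ = ((4 : ℕ) : ℝ) * ℓ by norm_num, Real.exp_nat_mul, hexpl,
      one_div]
  have hpe : pe (k := k) ε μ lam t univ 0 ≤ 1 / K ^ 2 := by
    unfold pe
    have hacc : acc k ε μ (univ : Finset (Fin k)).card = 0 := by
      unfold acc; simp
    rw [hacc, Finset.card_univ, Fintype.card_fin]
    have e5 : √(K * ℓ) ^ 2 = K * ℓ := Real.sq_sqrt (by positivity)
    have hexp : -lam * (((0 : ℕ) : ℝ) - 0) - lam * t + (k : ℝ) * (lam ^ 2 * (k : ℝ) ^ 2 / 2) =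
        -(2 * ℓ) := by
      rw [← hK, hlam, ht]
      have : (2 * K * √(K * ℓ)) ^ 2 = 4 * K ^ 3 * ℓ := by
        rw [mul_pow, e5]; ring
      field_simp
      push_cast
      nlinarith [this]
    rw [hexp, Real.exp_neg, show (2 : ℝ) * ℓ = ((2 : ℕ) : ℝ) * ℓ by norm_num, Real.exp_nat_mul,
      hexpl, one_div]
  have hpot : pot σ θ ε μ lam t univ (fun _ => 0) < 1 := by
    unfold pot
    have b1 : ∑ m : Fin (k + 1), pe (k := k) ε μ lam t univ 0 ≤ (K + 1) * (1 / K ^ 2) := by
      rw [Finset.sum_const, Finset.card_univ, Fintype.card_fin, nsmul_eq_mul]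
      push_cast
      exact mul_le_mul_of_nonneg_left hpe (by positivity)
    have b2 : ∑ m : Fin (k + 1), ∑ p ∈ range n, ∑ r ∈ Icc 1 (univ : Finset (Fin k)).card,
        pr σ θ ε μ univ m p r ≤ (K + 1) * (n * (K * (1 / K ^ 4))) := by
      calc _ ≤ ∑ m : Fin (k + 1), ∑ p ∈ range n,
            ∑ r ∈ Icc 1 (univ : Finset (Fin k)).card, 1 / K ^ 4 := by
            refine Finset.sum_le_sum fun m _ => Finset.sum_le_sum fun p _ =>
              Finset.sum_le_sum fun r hr => hpr m p r (Finset.mem_Icc.1 hr).1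
        _ = _ := by
            simp only [Finset.sum_const, Finset.card_univ, Fintype.card_fin, Nat.card_Icc,
              Finset.card_range, nsmul_eq_mul]
            push_cast
            simp
            ring
    have b3 : (K + 1) * (n * (K * (1 / K ^ 4))) ≤ (K + 1) * (K * (K + 1) / 2 * (K * (1 / K ^ 4))) := by
      gcongr
    have b4 : (K + 1) * (1 / K ^ 2) + (K + 1) * (K * (K + 1) / 2 * (K * (1 / K ^ 4))) < 1 := by
      have : (K + 1) * (1 / K ^ 2) + (K + 1) * (K * (K + 1) / 2 * (K * (1 / K ^ 4))) =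
          (2 * (K + 1) + (K + 1) ^ 2) / (2 * K ^ 2) := by
        field_simp
      rw [this, div_lt_one (by positivity)]
      nlinarith
    linarith
  obtain ⟨l, hl1, hl2, hl3⟩ := exists_list σ θ ε μ lam t hlampos hθpos hεnn hμK k univ (fun _ => 0)
    (by simp) hpot
  obtain ⟨m, hm⟩ := exists_foldl_le σ h l hl1 (fun v => (hl2 v).2 (Finset.mem_univ v))
  have h1 := hl3 m
  have h2 : ((l.foldl (fun x v => nxt σ x (m.succAbove v)) 0 : ℕ) : ℝ) ≤ n := by exact_mod_cast hm
  have h3 : K * (K + 1) / 2 - 8 * K * √(K * ℓ) ≤ acc k ε μ 0 := by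
    unfold acc
    rw [Finset.sum_sub_distrib, Finset.sum_const, Nat.card_Ioc, Nat.sub_zero, nsmul_eq_mul]
    have c1 : ∑ j ∈ Ioc 0 k, ε j ≤ 8 * K * √(K * ℓ) := by
      simp only [hε]
      rw [← Finset.mul_sum]
      have := sum_inv_sqrt_le k
      have c2 : √(K * ℓ) = √K * √ℓ := Real.sqrt_mul hKpos.le _
      calc 4 * K * √ℓ * ∑ j ∈ Ioc 0 k, 1 / √(j : ℝ) ≤ 4 * K * √ℓ * (2 * √K) := by
            gcongr
        _ = 8 * K * √(K * ℓ) := by rw [c2]; ring
    have c3 : (k : ℝ) * μ = K * (K + 1) / 2 := by rw [hμ, ← hK]; ring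
    linarith
  linarith

theorem exists_superpattern (k : ℕ) : ∃ n : ℕ, ∃ σ : Fin n → Fin (k + 1), IsSuperpattern k σ := by
  rcases Nat.eq_zero_or_pos k with rfl | hk
  · exact ⟨0, Fin.elim0, fun τ => ⟨Fin.elim0, fun a => a.elim0, fun a => a.elim0⟩⟩
  refine ⟨k * k, fun q => ⟨q % k, (Nat.mod_lt _ hk).trans (Nat.lt_succ_self k)⟩, fun τ => ?_⟩
  have hlt : ∀ j : Fin k, (j : ℕ) * k + (τ j : ℕ) < k * k := by
    intro j
    have h1 : (j : ℕ) + 1 ≤ k := j.2
    have h2 : (τ j : ℕ) < k := (τ j).2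
    calc (j : ℕ) * k + (τ j : ℕ) < (j : ℕ) * k + k := by omega
      _ = ((j : ℕ) + 1) * k := by ring
      _ ≤ k * k := Nat.mul_le_mul_right k h1
  refine ⟨fun j => ⟨(j : ℕ) * k + (τ j : ℕ), hlt j⟩, ?_, ?_⟩
  · intro a b hab
    rw [Fin.mk_lt_mk]
    have h1 : (a : ℕ) + 1 ≤ b := hab
    have h2 : (τ a : ℕ) < k := (τ a).2
    calc (a : ℕ) * k + (τ a : ℕ) < (a : ℕ) * k + k := by omega
      _ = ((a : ℕ) + 1) * k := by ring
      _ ≤ (b : ℕ) * k := Nat.mul_le_mul_right k h1
      _ ≤ _ := Nat.le_add_right _ _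
  · intro j j'
    have e : ∀ i : Fin k, ((i : ℕ) * k + (τ i : ℕ)) % k = (τ i : ℕ) := by
      intro i
      rw [Nat.mul_add_mod', Nat.mod_eq_of_lt (τ i).2]
    simp only [e, Fin.lt_def]

theorem le_f {k : ℕ} {x : ℝ}
    (h : ∀ (n : ℕ) (σ : Fin n → Fin (k + 1)), IsSuperpattern k σ → x ≤ n) :
    x ≤ f k (k + 1) := by
  have hne : {n : ℕ | ∃ σ : Fin n → Fin (k + 1), IsSuperpattern k σ}.Nonempty :=
    exists_superpattern k
  obtain ⟨σ, hσ⟩ := Nat.sInf_mem hne
  exact h _ σ hσ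

theorem f_bound (k : ℕ) : ((k : ℝ) ^ 2 + k) / 2 - 10 * k * √(k * log k) ≤ f k (k + 1) := by
  refine le_f fun n σ hσ => ?_
  rcases lt_or_ge k 5 with hk | hk
  · rcases lt_or_ge k 2 with hk2 | hk2
    · rcases Nat.eq_zero_or_pos k with rfl | hk0
      · simp
      · obtain rfl : k = 1 := by omega
        obtain ⟨i, -, -⟩ := hσ (Equiv.refl _)
        have h1 : 0 < n := (Nat.zero_le _).trans_lt (i 0).2
        norm_num
        exact h1
    · have h2 : (2 : ℝ) ≤ k := by exact_mod_cast hk2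
      have h5 : (k : ℝ) ≤ 5 := by exact_mod_cast hk.le
      have hl : (1 : ℝ) / 2 ≤ log k := by
        have e1 : log 2 ≤ log (k : ℝ) := Real.log_le_log (by norm_num) h2
        have e2 := Real.log_two_gt_d9
        linarith
      have h1 : 1 ≤ √((k : ℝ) * log k) := by
        rw [Real.one_le_sqrt]
        nlinarith
      have h3 : (0 : ℝ) ≤ n := Nat.cast_nonneg _
      nlinarith
  · have := main_bound hk σ hσ
    have e : ((k : ℝ) ^ 2 + k) / 2 = (k : ℝ) * (k + 1) / 2 := by ring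
    rw [e]
    exact this

/-- **Main theorem.**  For every `k`, `f(k;k+1) ≥ (k²+k)/2 - 10 k √(k log k)`; in particular
there are constants `c < 7/4` and `C > 0` with `f(k;k+1) ≥ (k²+k)/2 - C k^c` for all large `k`. -/
theorem result :
    (∀ k : ℕ, ((k : ℝ) ^ 2 + k) / 2 - 10 * k * √(k * Real.log k) ≤ f k (k + 1)) ∧
    (∃ c : ℝ, c < 7 / 4 ∧ ∃ C : ℝ, 0 < C ∧ ∃ k₀ : ℕ, ∀ k : ℕ, k₀ ≤ k →
      ((k : ℝ) ^ 2 + k) / 2 - C * (k : ℝ) ^ c ≤ f k (k + 1)) := by
  refine ⟨f_bound, 8 / 5, by norm_num, 30, by norm_num, 1, fun k hk => ?_⟩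
  have h := f_bound k
  have hk1 : (1 : ℝ) ≤ k := by exact_mod_cast hk
  have hk0 : (0 : ℝ) ≤ k := by linarith
  have hkpos : (0 : ℝ) < k := by linarith
  have hl : log (k : ℝ) ≤ 5 * (k : ℝ) ^ (1 / 5 : ℝ) := by
    have := Real.log_le_rpow_div hk0 (show (0 : ℝ) < 1 / 5 by norm_num)
    calc log (k : ℝ) ≤ (k : ℝ) ^ (1 / 5 : ℝ) / (1 / 5) := this
      _ = _ := by ring
  have hs : √((k : ℝ) * log k) ≤ 3 * (k : ℝ) ^ (3 / 5 : ℝ) := by
    rw [Real.sqrt_le_left (by positivity)]
    have e1 : ((k : ℝ) ^ (3 / 5 : ℝ)) ^ 2 = (k : ℝ) ^ (6 / 5 : ℝ) := by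
      rw [← Real.rpow_natCast, ← Real.rpow_mul hk0]; norm_num
    have e2 : (k : ℝ) * (k : ℝ) ^ (1 / 5 : ℝ) = (k : ℝ) ^ (6 / 5 : ℝ) := by
      nth_rewrite 1 [← Real.rpow_one (k : ℝ)]
      rw [← Real.rpow_add hkpos]; norm_num
    rw [mul_pow, e1]
    calc (k : ℝ) * log k ≤ (k : ℝ) * (5 * (k : ℝ) ^ (1 / 5 : ℝ)) := by gcongr
      _ = 5 * (k : ℝ) ^ (6 / 5 : ℝ) := by rw [← e2]; ring
      _ ≤ _ := by
          have : 0 ≤ (k : ℝ) ^ (6 / 5 : ℝ) := by positivity
          linarith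
  have e3 : (k : ℝ) * (k : ℝ) ^ (3 / 5 : ℝ) = (k : ℝ) ^ (8 / 5 : ℝ) := by
    nth_rewrite 1 [← Real.rpow_one (k : ℝ)]
    rw [← Real.rpow_add hkpos]; norm_num
  have h10 : 10 * (k : ℝ) * √(k * log k) ≤ 30 * (k : ℝ) ^ (8 / 5 : ℝ) := by
    calc 10 * (k : ℝ) * √(k * log k) ≤ 10 * (k : ℝ) * (3 * (k : ℝ) ^ (3 / 5 : ℝ)) := by gcongr
      _ = 30 * ((k : ℝ) * (k : ℝ) ^ (3 / 5 : ℝ)) := by ring
      _ = _ := by rw [e3]
  linarith

end Pool.Agent.Results.MP_467d97_co.LowerOrder
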